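import Pool.Agent.Q173.GF.Main

/-!
# Derived invariance of Hodge numbers up to subexponential factors and sublinear shifts

If the Hodge numbers of derived equivalent smooth projective varieties agree up to a factor
`exp (ε n)` and a shift of both indices by at most `ε n`, for every `ε > 0` in infinitely many
dimensions `n`, then they are equal in all dimensions.
-/

set_option autoImplicit false

namespace Pool.Agent.Results.MP_b4fe5e_ag.ApproximateHodgeNumbers

open Pool.Agent.Q173.GF

universe u

theorem result {V : Type u} (T : Theory V) (hT : T.IsKnown) :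
    (∀ X Y, T.eqv X Y → ∀ p q, T.h X p q = T.h Y p q) ↔
      ∀ ε : ℝ, 0 < ε → ∀ N : ℕ, ∃ n, N ≤ n ∧ T.Close ε n := by
  rw [← hT.main]
  exact forall_congr' fun X => forall_congr' fun Y => forall_congr' fun _ =>
    ⟨fun h => funext fun p => funext fun q => h p q, fun h p q => by rw [h]⟩

end Pool.Agent.Results.MP_b4fe5e_ag.ApproximateHodgeNumbers
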