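import Pool.Agent.Q8.NK.Rank

/-!
# Derived invariance of Hodge numbers: nef canonical or anticanonical class

Let `X`, `Y` be smooth projective complex varieties of dimension `n` with equivalent derived
categories, and let the canonical class (or the anticanonical class) be nef. Write `c = c₁` and
`P_j = ker c^(j+1) / (ker c^j + c ker c^(j+2))`.

Theorem. If the parts of `P_j` of type `(p', q')` have the same dimension for `X` and `Y` for all
`j ≥ m` and all `p' - q' = p - q`, `p' + q' ≤ n - j - 3`, then the cup product
`c^m : H^(p,q) → H^(p+m,q+m)` has the same rank for `X` and `Y`. For `m = 0` this is the equality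
`h^(p,q)(X) = h^(p,q)(Y)`.

The hypotheses `FM X Y` (Mukai, Orlov, Căldăraru: the isometry of the cohomologies given by the
equivalence), `Serre` (it commutes with the Serre functors) and `IsNef` (the mixed Lefschetz theorem
and the mixed Hodge-Riemann relations for nef classes: Cattani, Kaplan, Schmid; Cattani; de Cataldo,
Migliorini) are published theorems. The theorem reduces the question to low degrees. The hypothesis on
the low degrees holds in the following cases.

* `m ≥ n - 2 - |p - q|`: there is nothing to check.
* `K_X` semiample, all fibres of the Iitaka morphisms `X → B`, `Y → B` of dimension at most three,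
  `m = 0` (so all Hodge numbers of `X` and `Y` agree, in all dimensions). Here `B` is the common
  canonical model (Orlov: the canonical rings agree), and `-c` is the pull-back of the ample class
  `κ_B`. By the decomposition theorem (and de Cataldo-Migliorini) the part of degree `n - j - i` of
  `P_j` is the primitive part for `κ_B` of `H^(-j)(B, R_i)`, `R_i` the perverse direct image of degree
  `-i`. If the fibres have dimension at most three, `R_i = 0` for `i > 3`, and `R_3` is the
  intersection complex of `B` if `dim B = n - 3` and `0` otherwise. So the parts of degree at most
  `n - j - 3` depend only on `(B, κ_B)`.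
* `K_X` semiample of Kodaira dimension at least `n - 3`: all `h^(p,0)` agree. For `p ≤ n - 2` and
  `m = n - 2 - p` there is nothing to check, so `c^m` has the same rank on `H^(p,0)`; its kernel is
  `0` if the Kodaira dimension is at least `n - 2`, and consists of the `p`-forms on a resolution of
  `B` if it is `n - 3`.

Proof of the theorem. The nilpotent operator `c` is a derived invariant, hence so are its primitive
parts `P_j` with the grading by `p - q` and the form `∫ x^∨ c^j bar y`. By the mixed Hodge-Riemann
relations `P_j` looks like the cohomology of a variety of dimension `n - j`, and the inertia of the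
form on the classes with fixed `p - q` determines the dimensions in the degrees
`n - j - 2, …, n - j + 2` once those in lower degrees are known.
-/

open Pool.Agent.W539.DI Pool.Agent.Q8.NK Module

namespace Pool.Agent.Results.MP_b4fe5e_ag.CanonicalRanks

theorem result {n : ℕ} {X Y : KRing n} (Φ : FM X Y) (hΦ : Serre Φ) (s : ℝ) (hs : s ≠ 0)
    (hX : IsNef X ((s : ℂ) • X.c)) (hY : IsNef Y ((s : ℂ) • Y.c)) (m : ℕ) (p q : ℤ)
    (h : ∀ (j : ℕ) (p' q' : ℤ), m ≤ j → p' - q' = p - q → 0 ≤ p' → 0 ≤ q' →
      p' + q' + j + 3 ≤ n → primDim X X.c j p' q' = primDim Y Y.c j p' q') :
    rk X X.c m p q = rk Y Y.c m p q :=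
  ranks_c hΦ hs hX hY m p q h

end Pool.Agent.Results.MP_b4fe5e_ag.CanonicalRanks
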