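import Pool.Agent.Q8.OM.Above

/-!
# Derived invariance of the Hodge numbers above a level

Let `X i`, `X j` be derived equivalent smooth projective complex varieties of dimension `n`, and `C`
the class of all morphisms of rational Hodge structures up to Tate twists (or any smaller class of
correspondences with the formal properties of `Correspondences`, such as André's motivated cycles).
For every `l` the cohomology of `X i` has a largest sub-Hodge structure of level at most `l`;
`C.hodgeAbove i l p q` is the Hodge number `h^(p,q)` of the quotient.

* The Hodge numbers of the quotients of `H^*(X i)` and `H^*(X j)` by the parts of level at most `n - 3`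
  are the same, for all `p` and `q`.
* In degree `n - 2` this holds for the quotients by the parts of level at most `n - 6`.
-/

open Pool.Agent.Q8.OM

namespace Pool.Agent.Results.MP_b4fe5e_ag.HodgeNumbersAboveLevel

theorem result {n : ℕ} {ι : Type} (C : Correspondences n ι) {i j : ι}
    (h : C.DerivedEquivalent i j) :
    (∀ p q : ℤ, C.hodgeAbove i (n - 3) p q = C.hodgeAbove j (n - 3) p q) ∧
    ∀ p q : ℤ, p + q = n - 2 → C.hodgeAbove i (n - 6) p q = C.hodgeAbove j (n - 6) p q :=
  ⟨fun p q => Correspondences.above_all h p q, fun _ _ hpq => Correspondences.above_n2 h hpq⟩

end Pool.Agent.Results.MP_b4fe5e_ag.HodgeNumbersAboveLevel
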