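import Pool.Agent.Q8.NK.Semi

/-!
# Derived invariance of Hodge numbers: fivefolds with semiample canonical or anticanonical class

Let `X`, `Y` be smooth projective complex varieties of dimension `5` with equivalent derived
categories, and let `K_X` (or `-K_X`) be semiample; then the same holds for `Y`. Theorem: all Hodge
numbers of `X` and `Y` agree. (By the abundance conjecture this is the case of all minimal
fivefolds.)

Hypotheses (published theorems for such `X`, `Y`). `FM X Y`: the isometry of the cohomologies given by
the equivalence (Mukai, Orlov, Căldăraru). `Serre`: it commutes with the Serre functors. `IsNef`: the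
mixed Lefschetz theorem and the mixed Hodge-Riemann relations for `κ = s c₁` (`s = -1` or `s = 1`).
`Semi`: the forms of degree `p` which are killed by `κ^m`; here `X → B` and `Y → B` are the morphisms
to the common canonical (or anticanonical) model (Orlov), `ν = dim B`. `h1`: Popa and Schnell.
`LibgoberWood5`: the formula of Libgober and Wood; the topological Euler characteristic `c₅` is a
derived invariant, and `t = ∫ c₁ c₄` is one as well: for a smooth `D ∈ |m K_X|` and the corresponding
`D' ∈ |m K_Y|` one has `D(D) ≃ D(D')` (Toda, Fourier-Mukai transforms and canonical divisors), and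
by adjunction `∫_X c₁ c_(n-1) = - χ(D) / m + (1 / (m + 1)) ∫_D c₁ c_(n-2)`; use induction on the
dimension.
`hO`: `χ(O_X) = χ(O_Y)` if `ν ≤ 1`. By the theorem of Riemann and Roch
`1440 χ(O_X) = -c₁ c₄ + c₁² c₃ + 3 c₁ c₂² - c₁³ c₂`. For `ν = 0` this is zero. For `ν = 1` one has
`c₁² = 0`, and `∫ c₁ c₂²` is a multiple (depending only on `B`) of `∫_F c₂(F)²` for a general fibre
`F` of `X → B`. It is determined by `720 χ(O_F) = 3 c₂(F)² - c₄(F)`, and the fourfolds `F`, `F'` over
the same point of `B` are derived equivalent (Toda) with the same Hodge numbers (the starting theorem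
`HodgeInertia` and Popa-Schnell).

Proof. By the theorem `CanonicalRanks` the Hodge numbers with `p ≠ q` are determined by the primitive
parts `P_j` of the classes of type `(1, 0)` with `j ≤ 1` and of type `(2, 0)` with `j = 0`. The first
ones, and for `ν ≥ 2` the second one, are determined by `Semi`. For `ν ≤ 1` the number `h^(2,0)`
follows from `χ(O)`, and the Hochschild homology then gives `h^(3,1)`. On the diagonal it remains to
find `h^(1,1)` and `h^(2,2)` from their sum (Hochschild homology) and the formula of Libgober and Wood.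
-/

open Pool.Agent.W539.DI Pool.Agent.Q8.NK

namespace Pool.Agent.Results.MP_b4fe5e_ag.SemiampleFivefolds

theorem result {X Y : KRing 5} (Φ : FM X Y) (hΦ : Serre Φ) (s : ℝ) (hs : s ≠ 0)
    (hX : IsNef X ((s : ℂ) • X.c)) (hY : IsNef Y ((s : ℂ) • Y.c)) (ν : ℕ) (b : ℕ → ℕ)
    (sX : Semi X ((s : ℂ) • X.c) ν b) (sY : Semi Y ((s : ℂ) • Y.c) ν b)
    (h1 : X.h 1 0 = Y.h 1 0) (hO : ν ≤ 1 → chiO X = chiO Y)
    (t : ℤ) (lX : LibgoberWood5 X t) (lY : LibgoberWood5 Y t) (p q : ℤ) :
    X.h p q = Y.h p q :=
  fivefolds_semi hΦ hs hX hY ν b sX sY h1 hO t lX lY p q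

end Pool.Agent.Results.MP_b4fe5e_ag.SemiampleFivefolds
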